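import Pool.Agent.R936.Per.Fin

/-!
# de Rham-Betti classes and algebraic classes on products of varieties of CM type

Let `X i`, `i ∈ I`, be a possibly infinite family of smooth projective varieties over the field of algebraic
numbers whose cohomology is of CM type (`IsCMdR`), such that the Hodge classes on all products of members
are de Rham-Betti classes (by a theorem of Deligne this is true for abelian varieties), and suppose that the
dimension of the Hodge group of the family is at most `R` (`HgDimLe`). Then there is a set `S` of at
most `R + 1` members such that

1. all de Rham-Betti classes on all products of members are Hodge classes if and only if this is true for the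
   products of members of `S`;
2. the de Rham-Betti classes on all products of members are algebraic (so that for all products `X` of
   members the torsor of de Rham-Betti classes of `h(X)` is the torsor of motivic periods) if and only if the
   de Rham-Betti classes on the products of members of `S` are Hodge classes and the Hodge conjecture holds
   for the products of at most `R + 1` different members (and of a bounded number of factors, if the
   dimensions of the members are bounded).
-/

open CategoryTheory AlgebraicGeometry

universe u w

namespace Pool.Agent.Results.MP_f11a48_ag.CMFamilies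

open Pool.Agent.H914 Pool.Agent.Y121.AHS Pool.Agent.R940
  Pool.Agent.R936.Per Pool.Agent.Y133.Per
open Pool.Agent.R936.Hel2 (prodOf Few IsFactorBound)

variable {k : Type u} [Field k] {𝒱 : VarClass k} {ops : CycleOps 𝒱} {T : HodgeTheory ops}
  {F : Subfield ℂ} {I : Type w} {X : I → 𝒱.Obj}

theorem result (hF : AlgClosedIn F) (D : DeRham T.W F) (hpos : NonnegTypes T)
    (hX : ∀ i, IsCMdR D (X i)) (hDeligne : ∀ i L, HodgeAreDRB D (prodOf X i L)) {R : ℕ}
    (hR : HgDimLe T X R) :
    ∃ S : Finset I, S.card ≤ R + 1 ∧
      ((∀ i L, DRBAreHodge D (prodOf X i L)) ↔
        ∀ i L, (∀ j ∈ i :: L, j ∈ S) → DRBAreHodge D (prodOf X i L)) ∧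
      ∀ m : ℕ∞, IsFactorBound X R m →
        ((∀ i L, GPCAll D (prodOf X i L)) ↔
          (∀ i L, (∀ j ∈ i :: L, j ∈ S) → DRBAreHodge D (prodOf X i L)) ∧
          ∀ i L, Few (R + 1) m (i :: L) → HodgeAll T (prodOf X i L)) :=
  gpc_iff hF D hpos hX hDeligne hR

end Pool.Agent.Results.MP_f11a48_ag.CMFamilies
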