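import Pool.Agent.R920.DB.Main

/-!
# The motivated classes between the algebraic classes and the de Rham-Betti classes

Let `X` be a smooth projective variety over the field of algebraic numbers (with nonzero
cohomology). There are elements `N` and `M` of `{1, 2, …, ∞}` with the following properties.

The quotient of the dimensions of the spaces of the de Rham-Betti classes and of the motivated
classes (André) on `X ^ n` converges to `N`, and `N = 1` if and only if all de Rham-Betti classes on
all powers of `X` are motivated. Otherwise asymptotically at most one half of the de Rham-Betti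
classes is motivated; and if `N` is finite, all de Rham-Betti classes on all powers of `X` are
generated, under motivated correspondences, by motivated classes and at most `N - 1` de Rham-Betti
classes.

The quotient of the number of motivated classes and of the rank of the group of algebraic cycles
modulo numerical equivalence converges to `M`; we have `M = 1` if and only if all motivated
classes on all powers of `X` are algebraic. The quotient of the number of de Rham-Betti classes and
of the rank of the group of the cycles converges to the product `N M`.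
-/

open CategoryTheory AlgebraicGeometry

universe u v

namespace Pool.Agent.Results.MP_f11a48_ag.MotivatedTower

open Pool.Agent.H914 Pool.Agent.H914.VarClass Pool.Agent.H914.VarClass.Obj
  Pool.Agent.H914.WeilCohomology Pool.Agent.Y133.Per Pool.Agent.R920.MT Pool.Agent.R920.DB
open Pool.Agent.Y133.Half (pw HasIndex dimBy cycRank algDim AtMostHalf GeneratedOver)

variable {k : Type u} [Field k] {𝒱 : VarClass k} {ops : CycleOps 𝒱}

/-- All de Rham-Betti classes on all powers of `X` are motivated. -/
def DRBAreMotivated {W : WeilCohomology.{u, v} ops} [Algebra W.K ℂ] {F : Subfield ℂ}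
    (D : DeRham W F) (X : 𝒱.Obj) : Prop :=
  ∀ n j c, IsDRB D (pw X n) j c → IsMotivated W (pw X n) j c

/-- All motivated classes on all powers of `X` are algebraic. -/
def MotivatedAreAlgebraic (W : WeilCohomology.{u, v} ops) (X : 𝒱.Obj) : Prop :=
  ∀ n j c, IsMotivated W (pw X n) j c → c ∈ spanCycles W (pw X n) j

/-- **The tower law for algebraic, motivated and de Rham-Betti classes.** -/
theorem result (W : WeilCohomology.{u, v} ops) [Algebra W.K ℝ] [Algebra W.K ℂ]
    (hW : IsPolarised W) {F : Subfield ℂ} (D : DeRham W F) (hD : IsGraded D) (X : 𝒱.Obj)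
    [Nontrivial (W.H X)] (g m a r : ℕ → ℕ) (hg : ∀ n, g n = dimBy W (IsDRB D) (pw X n))
    (hm : ∀ n, m n = dimBy W (IsMotivated W) (pw X n)) (ha : ∀ n, a n = algDim W (pw X n))
    (hr : ∀ n, r n = cycRank ops (pw X n)) :
    ∃ N M : ℕ∞, 1 ≤ N ∧ 1 ≤ M ∧ HasIndex g m N ∧ HasIndex m r M ∧ HasIndex g r (N * M) ∧
      (N = 1 ↔ DRBAreMotivated D X) ∧ (M = 1 ↔ MotivatedAreAlgebraic W X) ∧
      (N ≠ 1 → AtMostHalf m g) ∧ (M ≠ 1 → AtMostHalf a m) ∧
      (N ≠ ⊤ → GeneratedOver W (IsMotivated W) (IsDRB D) X N) ∧
      (M ≠ ⊤ → ∀ n, HomEqNum W (pw X n)) := by
  obtain rfl := funext hg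
  obtain rfl := funext hm
  obtain rfl := funext ha
  obtain rfl := funext hr
  exact (motPred W).tower (drbPred D) (fun h => mot_drb hD h) X (fun n => mot_nondeg hW (pw X n))

end Pool.Agent.Results.MP_f11a48_ag.MotivatedTower
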