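import Pool.Agent.R918.Times5

set_option autoImplicit false

/-!
# Abelian varieties and small de Rham-Betti objects: independence of the torsors of periods

Let `A` be an abelian variety over the field `ℚ̄` of algebraic numbers, and let `Z` be an arbitrary
de Rham-Betti object over `ℚ̄` with a filtration, for example the realization of a mixed motive with
its weight filtration. Nothing is known about the periods of `Z` in general. We consider the group
`G_dRB(h^1(A) ⊕ Z)` and the torsor `Ω^dRB` of the direct sum: `Ω^dRB` contains the comparison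
isomorphism, and so it is sufficient to consider all algebraic groups `G ⊆ GL(H^1(A, ℚ) ⊕ Z_B)` over
`ℚ` such that some torsor of `G`, defined over `ℚ̄`, contains the comparison isomorphism
(`ContainsComparison`); the smallest one is `G_dRB(h^1(A) ⊕ Z)`.

**Theorem.** Let `m` be a positive integer such that all graded pieces of `Z` are `m`-small (`Small`):
there is an algebraic group `H` over `ℚ` with a torsor over `ℚ̄` that contains the comparison
isomorphism of `Z` (for example `GL`, or the motivic Galois group), such that the square of the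
dimension of the piece is at most `m`, or such that the brackets of the Lie algebra of `H` act on the
piece through a space of dimension less than `m`.

(a) Let `𝔰` be the derived algebra of the Lie algebra of `G_dRB(A)`. If all ideals of `𝔰`, except for
`𝔰`, have at least the codimension `m` (`Large`), then `G` contains `exp (𝔰 ⊗ ℂ) × 1`.

(b) Assume that all de Rham-Betti classes in `H^1(A) ^ {⊗ 4} (2)` are Hodge classes, and let `𝔰` be the
derived algebra of the Lie algebra of the Mumford-Tate group of `A`. If all ideals of `𝔰`, except for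
`𝔰`, have at least the codimension `m`, then `G` contains `exp (𝔰 ⊗ ℂ) × 1`; and if the Lie algebra of
the Hodge group is perfect, then `G` contains `Hg(A) × 1`, where `Hg(A)` is the Hodge group.

(c) Let `A` be of spin type (`TypeSpin`) for an integer `r ≥ 6`: the complex Lie algebra of the Hodge
group is a sum of orthogonal Lie algebras `so(r)`, which acts by spin representations. If
`2 m ≤ r (r - 1)`, then `G` contains `Hg(A) × 1`.

In the last two cases the image of `G` in the general linear group of `Z ⊕ ℚ(1)` determines `G` (up to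
the scalars in the Mumford-Tate group, which are given by `ℚ(1)`): the fibres of the map from
`G_dRB(h^1(A) ⊕ Z ⊕ ℚ(1))` to `G_dRB(Z ⊕ ℚ(1))` are as large as possible. So
`Ω^dRB = Ω^And` holds for `h^1(A) ⊕ Z ⊕ ℚ(1)` if and only if it holds for `Z ⊕ ℚ(1)`, and in any case
there are no relations of de Rham-Betti type between the periods of `A` and the periods of `Z`, except
for those between `2 π i` and the periods of `Z`.

## Examples

The hypothesis of (c) is satisfied for the Kuga-Satake varieties of the Hodge structures `T` of K3 type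
whose field `F` of endomorphisms is totally real and which have the rank `r` over `F` (by the theorem
of Zarhin). As the Kuga-Satake correspondence is motivated (André), `T` can be replaced for `A`: let
`X` be a K3 surface over `ℚ̄` of Picard number at most `16` whose transcendental lattice has no
endomorphisms except for the integers, `r = 22 - ρ(X)`; then the periods of `X` are independent, in
the sense of the de Rham-Betti torsor, of the periods of all mixed motives over `ℚ̄` whose graded
pieces have a dimension `d` with `2 d ^ 2 ≤ r (r - 1)`: all mixed Tate motives (the multiple zeta values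
and the polylogarithms at algebraic numbers), all iterated extensions of elliptic curves, of the
motives of abelian surfaces if `r ≥ 7` (`d = 4`, `H^1`), and of motives of rank `14` if `r = 21`. The
second alternative in `Small` adds motives with large graded pieces and small groups, for example
all abelian varieties with complex multiplication (with brackets zero), and the symmetric powers of
elliptic curves (with brackets of dimension three).

## Proof

The Lie algebra `𝔭` of the pairs in the Lie algebra of `G` contains the rational components of all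
logarithmic derivatives of the period matrix. By the theorem of Schneider and Lang, in the form of
Wüstholz for abelian varieties, which is proved in this repository, its projection to the
endomorphisms of `H_1(A, ℚ)` acts semisimply and has the right commutant, and by the decomposition of
the classes of degree four it contains `𝔰`. The extension of `𝔰` by elements of the Lie algebra of `Z`
is then treated by a variant of the lemma of Goursat for the graded pieces of `Z`: the part of `𝔰`
which can be lifted to an element acting as zero on one piece is an ideal of codimension less than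
`m`, and so it is `𝔰`; as `𝔰` is perfect, one can take brackets, first to get elements that act as zero
on all pieces, and then elements which are deeper and deeper in the filtration.
-/

open Module Matrix Pool.Agent.Y102 Pool.Agent.W516.DR Pool.Agent.H204R3.GP

noncomputable section

namespace Pool.Agent.Results.MP_f11a48_ag.SmallObjects

variable {g : ℕ} (A : AbVar g)

/-! ### The Lie algebras of an abelian variety -/

/-- The multilinear forms in `2m` variables in the rational homology. -/
abbrev Form (m : ℕ) : Type := MultilinearMap ℚ (fun _ : Fin m × Fin 2 => A.H1) ℚ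

/-- `φ` is a de Rham-Betti class in `H^1(A) ^ {⊗ 2m} (m)`. -/
def IsDRB {m : ℕ} (φ : Form A m) : Prop :=
  IsDeRhamBettiForm QBar A.dR (2 * Real.pi * Complex.I) m φ

/-- `φ` is a Hodge class in `H^1(A) ^ {⊗ 2m} (m)`. -/
def IsHodge {m : ℕ} (φ : Form A m) : Prop := IsHodgeTensor (A.per : A.H1 →+ (Fin g → ℂ)) φ

/-- The rational matrices, which act on `H_1(A, ℚ) = ℚ ^ {2g}` (in the basis of the lattice). -/
abbrev MatQ (g : ℕ) : Type := Matrix (Fin (2 * g)) (Fin (2 * g)) ℚ

/-- The matrix `X` annihilates the form `φ` (as a derivation). -/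
def Annihilates {m : ℕ} (X : MatQ g) (φ : Form A m) : Prop :=
  ∀ v : Fin m × Fin 2 → A.H1, ∑ k, φ (Function.update v k (X.mulVec (v k))) = 0

/-- `X` annihilates all de Rham-Betti classes. -/
def KillsDRB (X : MatQ g) : Prop :=
  ∀ (m : ℕ) (φ : Form A m), IsDRB A φ → Annihilates A X φ

/-- `X` annihilates all Hodge classes: it is in the Lie algebra of the Hodge group. -/
def KillsHodge (X : MatQ g) : Prop :=
  ∀ (m : ℕ) (φ : Form A m), IsHodge A φ → Annihilates A X φ

/-- `X` annihilates all classes that are Hodge classes and de Rham-Betti classes. -/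
def KillsBoth (X : MatQ g) : Prop :=
  ∀ (m : ℕ) (φ : Form A m), IsHodge A φ → IsDRB A φ → Annihilates A X φ

/-- The space spanned by the brackets of the matrices with the property `P`: the derived algebra. -/
def derived {n : ℕ} (P : Matrix (Fin n) (Fin n) ℚ → Prop) :
    Submodule ℚ (Matrix (Fin n) (Fin n) ℚ) :=
  Submodule.span ℚ {T | ∃ X Y, P X ∧ P Y ∧ T = X * Y - Y * X}

/-- All ideals of the Lie algebra `S`, except for `S`, have at least the codimension `m`. -/
def Large {n : ℕ} (S : Submodule ℚ (Matrix (Fin n) (Fin n) ℚ)) (m : ℕ) : Prop :=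
  ∀ I : Submodule ℚ (Matrix (Fin n) (Fin n) ℚ), I ≤ S → (∀ X ∈ I, ∀ Y ∈ S, X * Y - Y * X ∈ I) →
    I ≠ S → finrank ℚ I + m ≤ finrank ℚ S

/-- The complex span of the rational matrices with the property `P`. -/
def spanC {n : ℕ} (P : Matrix (Fin n) (Fin n) ℚ → Prop) : Submodule ℂ (Matrix (Fin n) (Fin n) ℂ) :=
  Submodule.span ℂ {Y | ∃ X, P X ∧ Y = X.map (algebraMap ℚ ℂ)}

/-- `A` is of spin type: the complex Lie algebra of the Hodge group is a sum of `k` orthogonal Lie
algebras `so(r)`, acting by spin representations: the `E i` are the generators of a Clifford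
algebra acting on `H_1(A, ℂ)`, each of them has one of `k` colours, each colour is used `r` times,
and the Lie algebra is spanned by the products of two different generators of the same colour. -/
def TypeSpin (r : ℕ) : Prop :=
  ∃ (N k : ℕ) (E : Fin N → Matrix (Fin (2 * g)) (Fin (2 * g)) ℂ) (c : Fin N → Fin k),
    (∀ i, E i * E i = 1) ∧ (∀ i j, i ≠ j → E i * E j = -(E j * E i)) ∧
    (∀ σ, (Finset.univ.filter fun j => c j = σ).card = r) ∧
    spanC (KillsBoth A) = Submodule.span ℂ {Y | ∃ i j, i ≠ j ∧ c i = c j ∧ Y = E i * E j}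

/-! ### Algebraic groups, periods and the Hodge group -/

/-- A subgroup of `GL_R(ℂ)` defined by polynomials with rational coefficients. -/
def IsAlgebraicSubgroup {R : Type} [Fintype R] [DecidableEq R] (G : Subgroup (GL R ℂ)) : Prop :=
  ∃ I : Set (MvPolynomial (R × R) ℚ), ∀ x : GL R ℂ, x ∈ G ↔
    ∀ p ∈ I, MvPolynomial.aeval (fun b : R × R => (x : Matrix R R ℂ) b.1 b.2) p = 0

/-- The comparison isomorphism `c` (with the rows numbered by a basis of the Betti side and the
columns by a basis of the de Rham side) is an element of a torsor `G · T⁻¹` of `G`, defined over the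
algebraic numbers. -/
def ContainsComparison {R S : Type} [Fintype R] [DecidableEq R] [Fintype S]
    (G : Subgroup (GL R ℂ)) (c : Matrix R S ℂ) : Prop :=
  ∃ T : Matrix S R ℂ, (∀ i j, IsAlgebraic ℚ (T i j)) ∧
    ∃ x ∈ G, (x : Matrix R R ℂ) = c * T

/-- The comparison isomorphism of `h^1(A)`: the periods of the basis of `H^1_dR(A / ℚ̄)` (the columns)
on the basis of the lattice (the rows). -/
def periodMatrix : Matrix (Fin (2 * g)) (Fin g ⊕ Fin g) ℂ :=
  Matrix.of fun j i => A.dR i (Pi.single j 1)

/-- The Hodge structure of `H^1(A)`: the complex number `z` acts on `H_1(A, ℝ) = ℂ ^ g` by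
multiplication, and on `H^1(A, ℝ)` by the transposed map, here in the basis of `H^1(A, ℚ)` which is
dual to the basis of the lattice. -/
def hodge (z : ℂ) : Matrix (Fin (2 * g)) (Fin (2 * g)) ℂ :=
  Matrix.of fun i j => ((A.lam.repr (z • A.lam i) j : ℝ) : ℂ)

/-- The Hodge group of `H^1(A)`: the smallest algebraic group over `ℚ` which contains the image of
the circle. -/
def hodgeGroup : Subgroup (GL (Fin (2 * g)) ℂ) :=
  sInf {G | IsAlgebraicSubgroup G ∧ ∀ z : ℂ, ‖z‖ = 1 → ∃ x ∈ G,
    (x : Matrix (Fin (2 * g)) (Fin (2 * g)) ℂ) = hodge A z}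

/-! ### Filtered de Rham-Betti objects -/

variable {B : Type} [Fintype B] [DecidableEq B]

/-- A de Rham-Betti object over `ℚ̄` with a filtration, given by the comparison isomorphism `per` in
bases of the Betti side (the rows) and of the de Rham side (the columns) which are adapted to the
filtration: `piece b` is the number of the graded piece to which the element `b` of the bases
belongs. -/
structure Filtered (B : Type) [Fintype B] [DecidableEq B] where
  /-- the comparison isomorphism -/
  per : Matrix B B ℂ
  /-- the number of the graded piece -/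
  piece : B → ℕ
  /-- the comparison isomorphism is compatible with the filtration -/
  filtered : ∀ a b, per a b ≠ 0 → piece a ≤ piece b

/-- `Y` is an element of the Lie algebra of the algebraic group `H`, and preserves the filtration. -/
def InLieOf (H : Subgroup (GL B ℂ)) (piece : B → ℕ) (Y : Matrix B B ℚ) : Prop :=
  (∀ t : ℂ, ∃ x ∈ H, (x : Matrix B B ℂ) = NormedSpace.exp (t • Y.map (algebraMap ℚ ℂ))) ∧
    ∀ a b, Y a b ≠ 0 → piece a ≤ piece b

/-- The space spanned by the brackets of the Lie algebra of `H`, acting on the graded piece `j`. -/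
def brackets (H : Subgroup (GL B ℂ)) (piece : B → ℕ) (j : ℕ) :
    Submodule ℚ (Matrix {b // piece b = j} {b // piece b = j} ℚ) :=
  Submodule.span ℚ {M | ∃ Y Y' : Matrix B B ℚ, InLieOf H piece Y ∧ InLieOf H piece Y' ∧
    M = (Y * Y' - Y' * Y).submatrix Subtype.val Subtype.val}

/-- The object `Z` is `m`-small. -/
def Small (Z : Filtered B) (m : ℕ) : Prop :=
  ∃ H : Subgroup (GL B ℂ), IsAlgebraicSubgroup H ∧ ContainsComparison H Z.per ∧
    ∀ j, Nat.card {b // Z.piece b = j} ^ 2 ≤ m ∨ finrank ℚ (brackets H Z.piece j) < m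

/-- The group `G` contains the pair `(M, 1)`. -/
def Contains {N : Type} [Fintype N] [DecidableEq N] (G : Subgroup (GL (N ⊕ B) ℂ))
    (M : Matrix N N ℂ) : Prop :=
  ∃ y ∈ G, (y : Matrix (N ⊕ B) (N ⊕ B) ℂ) = fromBlocks M 0 0 1

/-- The group `exp (S ⊗ ℂ)`, acting on `H^1(A)` (by the transposed matrices, up to inverses) and
trivially on `Z`, is contained in `G`. -/
def ContainsExp {n : ℕ} (G : Subgroup (GL (Fin n ⊕ B) ℂ))
    (S : Submodule ℚ (Matrix (Fin n) (Fin n) ℚ)) : Prop :=
  ∀ X ∈ spanC (fun X => X ∈ S), Contains G (NormedSpace.exp Xᵀ)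

/-- The Hodge group of `A`, acting on `H^1(A)` and trivially on `Z`, is contained in `G`. -/
def ContainsHodgeGroup (G : Subgroup (GL (Fin (2 * g) ⊕ B) ℂ)) : Prop :=
  ∀ x ∈ hodgeGroup A, Contains G (x : Matrix (Fin (2 * g)) (Fin (2 * g)) ℂ)

/-- The comparison isomorphism of `h^1(A) ⊕ Z` is an element of a torsor of `G`, defined over the
algebraic numbers. -/
def ContainsPeriods (Z : Filtered B) (G : Subgroup (GL (Fin (2 * g) ⊕ B) ℂ)) : Prop :=
  ContainsComparison G (fromBlocks (periodMatrix A) 0 0 Z.per)

/-- The conclusion (a): if the derived algebra of the Lie algebra of the de Rham-Betti classes has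
only large ideals, it is contained in the Lie algebra of `G`. -/
def ConclusionDRB (m : ℕ) (G : Subgroup (GL (Fin (2 * g) ⊕ B) ℂ)) : Prop :=
  Large (derived (KillsDRB A)) m → ContainsExp G (derived (KillsDRB A))

/-- The Lie algebra of the Hodge group is perfect. -/
def HodgePerfect : Prop := ∀ X, KillsHodge A X → X ∈ derived (KillsHodge A)

/-- All de Rham-Betti classes of degree four are Hodge classes. -/
def DegreeFour : Prop := ∀ φ : Form A 2, IsDRB A φ → IsHodge A φ

/-- The conclusion (b): if the de Rham-Betti classes of degree four are Hodge classes, and if the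
derived algebra of the Lie algebra of the Hodge classes has only large ideals, it is contained in
the Lie algebra of `G`, and if it is everything, then `G` contains the Hodge group. -/
def ConclusionHodge (m : ℕ) (G : Subgroup (GL (Fin (2 * g) ⊕ B) ℂ)) : Prop :=
  DegreeFour A → Large (derived (KillsHodge A)) m →
    ContainsExp G (derived (KillsHodge A)) ∧ (HodgePerfect A → ContainsHodgeGroup A G)

/-- The conclusion (c): if `A` is of spin type, then `G` contains the Hodge group. -/
def ConclusionSpin (m : ℕ) (G : Subgroup (GL (Fin (2 * g) ⊕ B) ℂ)) : Prop :=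
  ∀ r, 6 ≤ r → 2 * m ≤ r * (r - 1) → TypeSpin A r → ContainsHodgeGroup A G

/-! ### Proofs -/

/-- The elements of the first factor contained in an algebraic group. -/
theorem algebraic_left {N : Type} [Fintype N] [DecidableEq N] {G : Subgroup (GL (N ⊕ B) ℂ)}
    (hG : IsAlgebraicSubgroup G) : ∃ G' : Subgroup (GL N ℂ), IsAlgebraicSubgroup G' ∧
      ∀ x : GL N ℂ, x ∈ G' ↔ ∃ y ∈ G, (y : Matrix (N ⊕ B) (N ⊕ B) ℂ) =
        fromBlocks (x : Matrix N N ℂ) 0 0 1 := by
  classical
  obtain ⟨I, hI⟩ := hG
  let e : GL N ℂ →* GL (N ⊕ B) ℂ :=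
    Units.map
      { toFun := fun x => fromBlocks x (0 : Matrix N B ℂ) 0 1
        map_one' := fromBlocks_one
        map_mul' := fun x y => by
          rw [fromBlocks_multiply]
          simp }
  have he : ∀ x : GL N ℂ, (e x : Matrix (N ⊕ B) (N ⊕ B) ℂ) =
      fromBlocks (x : Matrix N N ℂ) 0 0 1 := fun x => rfl
  let s : (N ⊕ B) × (N ⊕ B) → MvPolynomial (N × N) ℚ := fun b =>
    match b with
    | (Sum.inl i, Sum.inl j) => MvPolynomial.X (i, j)
    | (Sum.inl _, Sum.inr _) => 0
    | (Sum.inr _, Sum.inl _) => 0
    | (Sum.inr a, Sum.inr b) => if a = b then 1 else 0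
  refine ⟨G.comap e, ⟨(fun p => MvPolynomial.bind₁ s p) '' I, fun x => ?_⟩, fun x => ?_⟩
  · have key : ∀ p : MvPolynomial ((N ⊕ B) × (N ⊕ B)) ℚ,
        MvPolynomial.aeval (fun b : N × N => (x : Matrix N N ℂ) b.1 b.2)
          (MvPolynomial.bind₁ s p) =
        MvPolynomial.aeval (fun b : (N ⊕ B) × (N ⊕ B) =>
          (e x : Matrix (N ⊕ B) (N ⊕ B) ℂ) b.1 b.2) p := by
      intro p
      rw [MvPolynomial.aeval_bind₁]
      congr 2
      funext b
      rcases b with ⟨i | a, j | b⟩
      · simp only [s, MvPolynomial.aeval_X, he, fromBlocks_apply₁₁]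
      · simp only [s, map_zero, he, fromBlocks_apply₁₂, Matrix.zero_apply]
      · simp only [s, map_zero, he, fromBlocks_apply₂₁, Matrix.zero_apply]
      · simp only [s, he, fromBlocks_apply₂₂, Matrix.one_apply]
        split_ifs
        · exact map_one _
        · exact map_zero _
    rw [Subgroup.mem_comap, hI]
    constructor
    · rintro h _ ⟨p, hp, rfl⟩
      rw [key]
      exact h p hp
    · intro h p hp
      rw [← key]
      exact h _ ⟨p, hp, rfl⟩
  · rw [Subgroup.mem_comap]
    constructor
    · intro h
      exact ⟨e x, h, he x⟩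
    · rintro ⟨y, hy, h⟩
      have h1 : y = e x := Units.ext (h.trans (he x).symm)
      rwa [← h1]

/-- From endomorphisms to matrices. -/
def eM (A : AbVar g) : Module.End ℚ A.H1 ≃ₐ[ℚ] MatQ g := LinearMap.toMatrixAlgEquiv'

theorem eM_mulVec (X : Module.End ℚ A.H1) (v : A.H1) : (eM A X).mulVec v = X v :=
  LinearMap.toMatrix'_mulVec X v

theorem eM_map (X : Module.End ℚ A.H1) :
    (eM A X).map (algebraMap ℚ ℂ) = Pool.Agent.Y102.toC X := by
  ext i j
  rfl

theorem annihilates_iff {m : ℕ} {X : Module.End ℚ A.H1} {φ : Form A m} :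
    Annihilates A (eM A X) φ ↔ Pool.Agent.H204R3.SP.Kills X φ := by
  unfold Annihilates Pool.Agent.H204R3.SP.Kills
  simp only [eM_mulVec]

theorem spanC_map {M : Submodule ℚ (Module.End ℚ A.H1)} {P : MatQ g → Prop}
    (h : ∀ X : Module.End ℚ A.H1, X ∈ M ↔ P (eM A X)) :
    spanC P = Submodule.span ℂ {Y | ∃ X ∈ M, Y = Pool.Agent.Y102.toC X} := by
  unfold spanC
  congr 1
  ext Y
  constructor
  · rintro ⟨X, hX, rfl⟩
    refine ⟨(eM A).symm X, (h _).2 ?_, ?_⟩
    · rwa [AlgEquiv.apply_symm_apply]
    · rw [← eM_map, AlgEquiv.apply_symm_apply]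
  · rintro ⟨X, hX, rfl⟩
    exact ⟨eM A X, (h X).1 hX, (eM_map A X).symm⟩

theorem derived_map {M : Submodule ℚ (Module.End ℚ A.H1)} {P : MatQ g → Prop}
    (h : ∀ X : Module.End ℚ A.H1, X ∈ M ↔ P (eM A X)) (X : Module.End ℚ A.H1) :
    X ∈ Pool.Agent.R918.TZ.dr M ↔ eM A X ∈ derived P := by
  constructor
  · intro hX
    unfold Pool.Agent.R918.TZ.dr at hX
    induction hX using Submodule.span_induction with
    | mem X hX =>
      obtain ⟨X, hX, Y, hY, rfl⟩ := hX
      rw [map_sub, map_mul, map_mul]
      exact Submodule.subset_span ⟨_, _, (h X).1 hX, (h Y).1 hY, rfl⟩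
    | zero =>
      rw [map_zero]
      exact Submodule.zero_mem _
    | add a b _ _ ha hb =>
      rw [map_add]
      exact Submodule.add_mem _ ha hb
    | smul c a _ ha =>
      rw [map_smul]
      exact Submodule.smul_mem _ _ ha
  · intro hX
    have key : ∀ Y ∈ derived P, (eM A).symm Y ∈ Pool.Agent.R918.TZ.dr M := by
      intro Y hY
      unfold derived at hY
      induction hY using Submodule.span_induction with
      | mem Y hY =>
        obtain ⟨X, Y, hX, hY, rfl⟩ := hY
        rw [map_sub, map_mul, map_mul]
        refine Submodule.subset_span ⟨_, (h _).2 ?_, _, (h _).2 ?_, rfl⟩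
        · rwa [AlgEquiv.apply_symm_apply]
        · rwa [AlgEquiv.apply_symm_apply]
      | zero =>
        rw [map_zero]
        exact Submodule.zero_mem _
      | add a b _ _ ha hb =>
        rw [map_add]
        exact Submodule.add_mem _ ha hb
      | smul c a _ ha =>
        rw [map_smul]
        exact Submodule.smul_mem _ _ ha
    have h1 := key _ hX
    rwa [AlgEquiv.symm_apply_apply] at h1

theorem large_map {S : Submodule ℚ (Module.End ℚ A.H1)} {S' : Submodule ℚ (MatQ g)} {m : ℕ}
    (h : ∀ X : Module.End ℚ A.H1, X ∈ S ↔ eM A X ∈ S') (hl : Large S' m) :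
    Pool.Agent.R918.TZ.Large S m := by
  have hS : S' = S.map (eM A).toLinearEquiv.toLinearMap := by
    ext Y
    constructor
    · intro hY
      refine ⟨(eM A).symm Y, (h _).2 ?_, (eM A).apply_symm_apply Y⟩
      rwa [AlgEquiv.apply_symm_apply]
    · rintro ⟨X, hX, rfl⟩
      exact (h X).1 hX
  intro I hI hid hne
  have h1 := hl (I.map (eM A).toLinearEquiv.toLinearMap) ?_ ?_ ?_
  · have h2 : finrank ℚ (I.map (eM A).toLinearEquiv.toLinearMap) = finrank ℚ I :=
      LinearEquiv.finrank_map_eq (eM A).toLinearEquiv I
    have h3 : finrank ℚ (S.map (eM A).toLinearEquiv.toLinearMap) = finrank ℚ S :=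
      LinearEquiv.finrank_map_eq (eM A).toLinearEquiv S
    rw [hS, h2, h3] at h1
    exact h1
  · rw [hS]
    exact Submodule.map_mono hI
  · rintro _ ⟨X, hX, rfl⟩ Y hY
    rw [hS] at hY
    obtain ⟨Y, hY, rfl⟩ := hY
    exact ⟨X * Y - Y * X, hid X hX Y hY, by
      change eM A (X * Y - Y * X) = eM A X * eM A Y - eM A Y * eM A X
      rw [map_sub, map_mul, map_mul]⟩
  · intro heq
    rw [hS] at heq
    exact hne (Submodule.map_injective_of_injective (eM A).toLinearEquiv.injective heq)

theorem contains_hodge {G : Subgroup (GL (Fin (2 * g) ⊕ B) ℂ)} (hG : IsAlgebraicSubgroup G)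
    (h : ∀ X ∈ Submodule.span ℂ {Y | ∃ X ∈ A.MA, Y = Pool.Agent.Y102.toC X},
      Contains G (NormedSpace.exp Xᵀ)) : ContainsHodgeGroup A G := by
  obtain ⟨G', h1, h2⟩ := algebraic_left hG
  have h3 : hodgeGroup A ≤ G' := by
    refine sInf_le ⟨h1, fun z hz => ?_⟩
    obtain ⟨y, hy, hyz⟩ := Pool.Agent.R918.TZ.circle_of (A := A) h hz
    have hdet : (hodge A z).det ≠ 0 := by
      intro h0
      have h4 := (Matrix.GeneralLinearGroup.det y).ne_zero
      apply h4
      change (y : Matrix (Fin (2 * g) ⊕ B) (Fin (2 * g) ⊕ B) ℂ).det = 0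
      rw [hyz, Matrix.det_fromBlocks_zero₁₂, Matrix.det_one, mul_one]
      exact h0
    exact ⟨Matrix.GeneralLinearGroup.mkOfDetNeZero _ hdet, (h2 _).2 ⟨y, hy, hyz⟩, rfl⟩
  intro x hx
  exact (h2 x).1 (h3 hx)

/-- **Theorem.** Independence of an abelian variety and of small de Rham-Betti objects. -/
theorem result (g : ℕ) (A : AbVar g) (B : Type) [Fintype B] [DecidableEq B] (Z : Filtered B)
    (m : ℕ) (hm : 0 < m) (hZ : Small Z m) (G : Subgroup (GL (Fin (2 * g) ⊕ B) ℂ))
    (hG : IsAlgebraicSubgroup G) (hP : ContainsPeriods A Z G) :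
    ConclusionDRB A m G ∧ ConclusionHodge A m G ∧ ConclusionSpin A m G := by
  obtain ⟨H, hH, ⟨TZ, hTZ, xZ, hxZ, hxTZ⟩, hj⟩ := hZ
  obtain ⟨T, hT, x, hx, hxT⟩ := hP
  have hGG := Pool.Agent.R917.algGrp_of hG
  have hHH := Pool.Agent.R917.algGrp_of hH
  have hlie : ∀ Y, Y ∈ Pool.Agent.R918.TZ.lieZ (Pool.Agent.R918.TZ.mats H) Z.piece ↔
      InLieOf H Z.piece Y := by
    intro Y
    rw [Pool.Agent.R918.TZ.mem_lieZ]
    exact and_congr (Pool.Agent.R918.TZ.AlgGrp.exp_iff hHH _).symm Iff.rfl
  have hsmall : ∀ j, Nat.card {b : B // Z.piece b = j} ^ 2 ≤ m ∨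
      finrank ℚ ((Pool.Agent.R918.TZ.drZ (Pool.Agent.R918.TZ.lieZ
        (Pool.Agent.R918.TZ.mats H) Z.piece)).map (Pool.Agent.R918.TZ.bl Z.piece j)) < m := by
    intro j
    rcases hj j with h | h
    · exact Or.inl h
    · exact Or.inr (Pool.Agent.R918.TZ.finrank_blocks hlie h)
  have kL : ∀ X : Module.End ℚ A.H1, X ∈ A.LA ↔ KillsDRB A (eM A X) := fun X =>
    forall_congr' fun k => forall_congr' fun φ => imp_congr Iff.rfl (annihilates_iff A).symm
  have kM : ∀ X : Module.End ℚ A.H1, X ∈ A.MA ↔ KillsHodge A (eM A X) := fun X =>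
    forall_congr' fun k => forall_congr' fun φ => imp_congr Iff.rfl (annihilates_iff A).symm
  have kN : ∀ X : Module.End ℚ A.H1, X ∈ A.NA ↔ KillsBoth A (eM A X) := fun X =>
    forall_congr' fun k => forall_congr' fun φ => imp_congr Iff.rfl
      (imp_congr Iff.rfl (annihilates_iff A).symm)
  refine ⟨fun hlarge => ?_, fun h4 hlarge => ?_, fun r hr hmr hs => ?_⟩
  · intro X hX
    rw [spanC_map A (derived_map A kL)] at hX
    exact Pool.Agent.R918.TZ.concl Z.filtered hHH hTZ hxZ hxTZ hGG hT hx hxT hm hsmall A.LA_le_NA
      (fun X hX Y hY => A.LA_bracket hX hY) A.DA_perfect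
      (fun X hX φ hφ => hX 2 φ hφ) (large_map A (derived_map A kL) hlarge) hX
  · have key : ContainsExp G (derived (KillsHodge A)) := by
      intro X hX
      rw [spanC_map A (derived_map A kM)] at hX
      exact Pool.Agent.R918.TZ.concl Z.filtered hHH hTZ hxZ hxTZ hGG hT hx hxT hm hsmall A.MA_le_NA
        (fun X hX Y hY => A.MA_bracket hX hY) (Pool.Agent.R918.TZ.MA_perfect A)
        (fun X hX φ hφ => hX 2 φ (h4 φ hφ)) (large_map A (derived_map A kM) hlarge) hX
    refine ⟨key, fun hperf => contains_hodge A hG fun X hX => key X ?_⟩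
    rw [spanC_map A (derived_map A kM)]
    refine Submodule.span_mono ?_ hX
    rintro _ ⟨X, hX, rfl⟩
    exact ⟨X, (derived_map A kM X).2 (hperf _ ((kM X).1 hX)), rfl⟩
  · obtain ⟨N, k, E, c, e1, e2, hc, hl⟩ := hs
    rw [spanC_map A kN] at hl
    obtain ⟨l1, l2, l3⟩ := Pool.Agent.R918.TZ.spin_data (A := A) hr e1 e2 hc hl
    have h5 : m ≤ r * (r - 1) / 2 := by
      rw [Nat.le_div_iff_mul_le (by norm_num)]
      omega
    have hbr : ∀ X ∈ A.NA, ∀ Y ∈ A.NA, X * Y - Y * X ∈ A.NA := fun X hX Y hY => A.NA_bracket hX hY
    have h6 : Pool.Agent.R918.TZ.dr A.NA = A.NA :=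
      le_antisymm (Pool.Agent.R918.TZ.dr_le hbr) l2
    refine contains_hodge A hG fun X hX => ?_
    refine Pool.Agent.R918.TZ.concl Z.filtered hHH hTZ hxZ hxTZ hGG hT hx hxT hm hsmall le_rfl
      hbr (by rw [h6, h6]) (fun X hX φ hφ => (l1 hX) 2 φ hφ) ?_ ?_
    · rw [h6]
      intro I hI hid hne
      have h7 := l3 I hI hid hne
      omega
    · rw [h6]
      refine Submodule.span_mono ?_ hX
      rintro _ ⟨X, hX, rfl⟩
      exact ⟨X, A.MA_le_NA hX, rfl⟩

end Pool.Agent.Results.MP_f11a48_ag.SmallObjects
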