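import Pool.Agent.R918.AV

set_option autoImplicit false

/-!
# The torsor of periods and the torsor of motivated periods of the Kuga-Satake varieties of K3
# surfaces with complex multiplication: Hodge groups of unitary type, of even rank

Let `A` be an abelian variety over the field `K = ℚ̄` of algebraic numbers, and let `M = h^1(A)`. We
compare the torsor of periods `Ω^{dRB}_M` (defined by all de Rham-Betti classes in the tensor powers of
`M`) with the torsor of motivated periods `Ω^{And}_M`. By a theorem of André the Hodge classes on the
powers of `A` are motivated, so that `Ω^{And}_M` is defined by the Hodge classes; by a theorem of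
Deligne these are de Rham-Betti classes. As `M` is dual to `M(1)` it is sufficient to consider classes
in `M ^ {⊗ r} (w)`: such a class is given by a multilinear form `φ` with rational values in `r`
variables in `H_1(A, ℚ)` and by the array `c` of the coefficients (in `ℚ̄`) of its de Rham component,
and a point of a torsor is a pair `(F, t)` of an isomorphism `F` from `H^1_dR(A / ℚ̄) ⊗ ℂ` to
`H^1(A, ℂ)` and of a number `t` (the isomorphism for the Tate motive); the comparison isomorphism is
the point `(A.dR, 2 π i)`.

Nothing is assumed about periods: `AbVar` is the description of an abelian variety over `ℚ̄` by theta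
functions (see `Pool/Agent/Y102/AVDefs.lean`, where it is explained why every abelian variety has it),
and the transcendence theorem which is used is the theorem of Schneider and Lang, which is proved in
this repository.

Let `𝔤` be the Lie algebra of the endomorphisms of `H_1(A, ℚ)` that annihilate all classes which are at
the same time Hodge classes and de Rham-Betti classes (`InLie`); it is the Lie algebra of the Hodge
group of `A`.

**Theorem.** Assume that `𝔤 ⊗ ℂ` is of unitary type, of even rank `n` (`TypeUnitary`): there are
creation and annihilation operators `a σ i`, `b σ i` (`σ < k`, `i < n`) on `H_1(A, ℂ)`, which satisfy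
the canonical anticommutation relations, such that `𝔤 ⊗ ℂ` is contained in the span of the operators
`a σ i * b σ j - b σ j * a σ i`, which is a sum of `k` Lie algebras `gl(n)` (one for each colour `σ`),
acting on a sum of copies of the tensor product of the `k` exterior algebras of the standard
representations, and generates an associative algebra which contains the `a σ i * b σ j`. Assume that
`k = 1`, or that the centre of `𝔤` is rigid (`RigidCentre`). Then all de Rham-Betti classes in the
tensor powers of `h^1(A)` are Hodge classes, and `Ω^{dRB}_M = Ω^{And}_M`.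

## Kuga-Satake varieties

Let `X` be a K3 surface over `ℚ̄` (or a hyperkähler variety, or a cubic fourfold), let `T` be its
transcendental lattice, and let `E` be the field of the endomorphisms of the Hodge structure `T`. By
the theorem of Zarhin `E` is totally real or a CM field. The first case is the subject of the file
`Results/MP_bf54cf_ag/KugaSatake.lean`; here we consider the second case. Let `2 k` be the degree of
`E` and let `n` be the dimension of `T` over `E`, so that `T` has rank `2 k n`. The Hodge group of `T`
is the unitary group of the hermitian form of `T` over `E`, and `T ⊗ ℂ` is the sum of totally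
isotropic spaces `W_σ` and `W_σ'` of dimension `n`, in duality (`σ = 1, …, k`). The first homology of
the Kuga-Satake variety `A` of `T` is the even Clifford algebra `C⁺(T)`, and the Lie algebra of its
Hodge group is the Lie algebra of the Hodge group of `T` acting by left multiplication. Let
`w_1, …, w_n` be a basis of `W_σ` and let `w_1', …, w_n'` be the dual basis of `W_σ'`, so that
`w_i w_j' + w_j' w_i = δ_{ij}` in the Clifford algebra, and let `e` be a vector of `T ⊗ ℂ` with
`e ^ 2 = 1`. The operators `a σ i : x ↦ w_i x e` and `b σ i : x ↦ w_i' x e` on `C⁺(T ⊗ ℂ)` satisfy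
the hypothesis, if `n` is even. So the conclusion holds for the Kuga-Satake varieties of all K3
surfaces over `ℚ̄` with multiplication by an imaginary quadratic field `E` (`k = 1`) such that the rank
of `T` is divisible by four. Examples are the general members of the families of elliptic K3 surfaces
`y ^ 2 = x ^ 3 + f(t)` (`f` of degree `12`, `E = ℚ(√-3)`, `n = 10`) and `y ^ 2 = x ^ 3 + f(t) x`
(`f` of degree `8`, `E = ℚ(i)`, `n = 6`). As the Kuga-Satake correspondence is motivated (André), the
motive of `X` is in the tensor category generated by `h^1(A)` and the Tate motives and Artin motives,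
and so all de Rham-Betti classes on all powers of `X` are Hodge classes and motivated.

If the degree of `E` is larger, the condition `RigidCentre` is a condition on the field `E` alone: the
centre of `𝔤` is the space of the `x` in `E` with `x̄ = -x`, with the eigenvalues
`∑ σ, (k_σ - n / 2) σ(x)` (`0 ≤ k_σ ≤ n`), and the condition means that the numbers `σ(x)` satisfy no
linear relations over `ℚ` if the sums `∑ σ, ± σ(x)` are all different. This is true if `E` has degree
four: if `σ_1(x) = r σ_2(x)` with a rational number `r`, the conjugation by an element of the Galois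
group which exchanges the two real places shows that `r ^ 2 = 1`.

For odd `n` the method fails: the subalgebra `so(n)` of `sl(n)` acts irreducibly on all exterior
powers of the standard representation.

## Proof

By the theorem of Schneider and Lang the Lie algebra `𝔥` of the endomorphisms that annihilate all
de Rham-Betti classes is a subalgebra of `𝔤` which acts semisimply on `H_1(A, ℚ)` and has the same
commutant. So the following statement is needed, which seems to be new
(`Pool.Agent.R918.traceless_mem`, `Pool.Agent.R918.one_block`): let `n` be even and let `𝔥` be a Lie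
subalgebra of the sum of the `gl(n)` such that the associative algebra generated by `𝔥` contains all
`a σ i * b σ j`; then `𝔥` contains all `sl(n)`, and all of `gl(n)` if `k = 1`. The proof does not use
the classification of the representations of semisimple Lie algebras. Let `χ_1 > … > χ_n` be the
weights of the standard representation of one colour for a Cartan subalgebra of `𝔥` and a generic
ordering. As the exterior powers are irreducible, the vector of the second highest weight in each of
them is obtained from the vector of highest weight by a root vector; so `d_i = χ_i - χ_{i + 1}` is a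
root, and it turns out that it is a simple root, that `d_{i - 1}` and `d_{i + 1}` are different (there
is only one vector of weight `χ_1 + … + χ_i - d_i - d_{i + 1}` in the submodule generated by the
vector of highest weight of the `i`-th exterior power, for `d_{i - 1} = d_{i + 1}`), and that the
simple roots for different colours are different. The integrality properties of the roots give
relations between the neighbours of different occurrences of the same letter in the word
`d_1 d_2 … d_{n - 1}`: if some letter occurs twice, then the word is a palindrome of even length,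
and so `n` is odd. If all letters are different, then the root vectors are elementary matrices.
-/

open Module Matrix Pool.Agent.Y102 Pool.Agent.W516.DR Pool.Agent.H204R3.GP

noncomputable section

namespace Pool.Agent.Results.MP_f11a48_ag.UnitaryKugaSatake

variable {g : ℕ} (A : AbVar g)

/-- The rational multilinear form `φ` in `r` variables in `H_1(A, ℚ)` and the array `c` of elements
of `ℚ̄` are compatible with the point `(F, t)`, in the twist `w`: the isomorphism given by `(F, t)`
maps the element of `H^1_dR(A / ℚ̄) ^ {⊗ r} (w)` with the coordinates `c` to `φ`. -/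
def Respects {r : ℕ} (F : Fin g ⊕ Fin g → (A.H1 →ₗ[ℚ] ℂ)) (t : ℂ) (w : ℤ)
    (c : (Fin r → Fin g ⊕ Fin g) → QBar) (φ : MultilinearMap ℚ (fun _ : Fin r => A.H1) ℚ) : Prop :=
  ∀ v, t ^ w * (φ v : ℂ) = ∑ J, algebraMap QBar ℂ (c J) * ∏ l, F (J l) (v l)

/-- `(c, φ)` is a de Rham-Betti class in `H^1(A) ^ {⊗ r} (w)`: it is compatible with the comparison
isomorphism. -/
def IsDRB {r : ℕ} (w : ℤ) (c : (Fin r → Fin g ⊕ Fin g) → QBar)
    (φ : MultilinearMap ℚ (fun _ : Fin r => A.H1) ℚ) : Prop :=
  Respects A A.dR (2 * Real.pi * Complex.I) w c φ

/-- `φ` is a Hodge class: it extends to a real multilinear form on the tangent space which is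
invariant under the multiplication by the complex numbers of absolute value `1`. -/
def IsHodge {κ : Type} (φ : MultilinearMap ℚ (fun _ : κ => A.H1) ℚ) : Prop :=
  IsHodgeTensor (A.per : A.H1 →+ (Fin g → ℂ)) φ

/-- The complex points of the torsor `Ω^{dRB}` of `h^1(A)`: the isomorphisms compatible with all
de Rham-Betti classes. -/
def OmegaDRB : Set ((Fin g ⊕ Fin g → (A.H1 →ₗ[ℚ] ℂ)) × ℂ) :=
  {P | LinearIndependent ℂ P.1 ∧ P.2 ≠ 0 ∧
    ∀ (r : ℕ) (w : ℤ) (c : (Fin r → Fin g ⊕ Fin g) → QBar)
      (φ : MultilinearMap ℚ (fun _ : Fin r => A.H1) ℚ),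
      IsDRB A w c φ → Respects A P.1 P.2 w c φ}

/-- The complex points of the torsor `Ω^{And}` of `h^1(A)`: the isomorphisms compatible with all
Hodge classes. -/
def OmegaAnd : Set ((Fin g ⊕ Fin g → (A.H1 →ₗ[ℚ] ℂ)) × ℂ) :=
  {P | LinearIndependent ℂ P.1 ∧ P.2 ≠ 0 ∧
    ∀ (r : ℕ) (w : ℤ) (c : (Fin r → Fin g ⊕ Fin g) → QBar)
      (φ : MultilinearMap ℚ (fun _ : Fin r => A.H1) ℚ),
      IsDRB A w c φ → IsHodge A φ → Respects A P.1 P.2 w c φ}

/-- The endomorphism `X` annihilates the form `φ` (as a derivation). -/
def Annihilates {κ : Type} [Fintype κ] [DecidableEq κ] (X : Module.End ℚ A.H1)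
    (φ : MultilinearMap ℚ (fun _ : κ => A.H1) ℚ) : Prop :=
  ∀ v, ∑ l, φ (Function.update v l (X (v l))) = 0

/-- `X` is in the Lie algebra `𝔤`: it annihilates all classes in `H^1(A) ^ {⊗ 2m} (m)` that are Hodge
classes and de Rham-Betti classes. -/
def InLie (X : Module.End ℚ A.H1) : Prop :=
  ∀ (m : ℕ) (φ : MultilinearMap ℚ (fun _ : Fin m × Fin 2 => A.H1) ℚ), IsHodge A φ →
    IsDeRhamBettiForm QBar A.dR (2 * Real.pi * Complex.I) m φ → Annihilates A X φ

/-- The algebra of the endomorphisms of `H_1(A, ℂ)`, as matrices for the basis of the lattice. -/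
abbrev EndC (_ : AbVar g) : Type := Matrix (Fin (2 * g)) (Fin (2 * g)) ℂ

/-- The matrix of the extension of an endomorphism of `H_1(A, ℚ)` to `H_1(A, ℂ)`. -/
def toC (X : Module.End ℚ A.H1) : EndC A := Matrix.of fun i j => (X (Pi.single j 1) i : ℂ)

/-- The complex Lie algebra `𝔤 ⊗ ℂ`, acting on `H_1(A, ℂ)`. -/
def lieC : Submodule ℂ (EndC A) := Submodule.span ℂ {Y | ∃ X, InLie A X ∧ Y = toC A X}

/-- The canonical anticommutation relations for the creation operators `a σ i` and the annihilation
operators `b σ i`. -/
def Car {k n : ℕ} (a b : Fin k → Fin n → EndC A) : Prop :=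
  (∀ σ i τ j, a σ i * a τ j = -(a τ j * a σ i)) ∧
  (∀ σ i τ j, b σ i * b τ j = -(b τ j * b σ i)) ∧
  ∀ σ i τ j, a σ i * b τ j + b τ j * a σ i = if σ = τ ∧ i = j then 1 else 0

/-- The sum of the `k` Lie algebras `gl(n)`, one for each colour. -/
def glSum {k n : ℕ} (a b : Fin k → Fin n → EndC A) : Submodule ℂ (EndC A) :=
  Submodule.span ℂ {Y | ∃ σ i j, Y = a σ i * b σ j - b σ j * a σ i}

/-- The Lie algebra `𝔤 ⊗ ℂ` is contained in a sum of `k` Lie algebras `gl(n)` which acts on `H_1(A, ℂ)`
by creation and annihilation operators, and generates an associative algebra which contains the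
`a σ i * b σ j`. -/
def TypeUnitary (k n : ℕ) : Prop :=
  ∃ a b : Fin k → Fin n → EndC A, Car A a b ∧ lieC A ≤ glSum A a b ∧
    ∀ σ i j, a σ i * b σ j ∈ Algebra.adjoin ℂ (lieC A : Set (EndC A))

/-- `X` is an element of the centre of `𝔤`. -/
def InCentre (X : Module.End ℚ A.H1) : Prop := InLie A X ∧ ∀ Y, InLie A Y → Y * X = X * Y

/-- The endomorphisms which commute with `X` and with the derived algebra of `𝔤` commute with the
centre of `𝔤`. -/
def Generates (X : Module.End ℚ A.H1) : Prop :=
  ∀ T : Module.End ℚ A.H1,
    (∀ Y, InLie A Y → ∀ Z, InLie A Z → T * (Y * Z - Z * Y) = (Y * Z - Z * Y) * T) →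
    T * X = X * T → ∀ Z, InCentre A Z → T * Z = Z * T

/-- All relations `∑ i, x i = 0` between eigenvalues of `X` imply the relation `∑ i, y i = 0` between
the eigenvalues of `Y` for the same eigenvectors. -/
def RelationsOf (X Y : Module.End ℚ A.H1) : Prop :=
  ∀ (r : ℕ) (v : Fin r → Fin (2 * g) → ℂ) (x y : Fin r → ℂ),
    (∀ i, v i ≠ 0 ∧ Matrix.mulVec (toC A X) (v i) = x i • v i ∧
      Matrix.mulVec (toC A Y) (v i) = y i • v i) → ∑ i, x i = 0 → ∑ i, y i = 0

/-- The centre of `𝔤` is rigid: the relations between the eigenvalues of a generating element of the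
centre hold for all elements of the centre. -/
def RigidCentre : Prop :=
  ∀ X, InCentre A X → Generates A X → ∀ Y, InCentre A Y → RelationsOf A X Y

/-- **De Rham-Betti classes are Hodge classes, and `Ω^{dRB} = Ω^{And}`, for `h^1` of the abelian
varieties of unitary type and even rank.** -/
theorem result (g : ℕ) (A : AbVar g) (k n : ℕ) (hn : Even n) (h : TypeUnitary A k n)
    (hz : k = 1 ∨ RigidCentre A) :
    (∀ (r : ℕ) (w : ℤ) (c : (Fin r → Fin g ⊕ Fin g) → QBar)
      (φ : MultilinearMap ℚ (fun _ : Fin r => A.H1) ℚ), IsDRB A w c φ → IsHodge A φ) ∧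
    OmegaDRB A = OmegaAnd A := by
  obtain ⟨a, b, ⟨h1, h2, h3⟩, h4, h5⟩ := h
  have key := R918.full_unitary' A.full_LA hn (a := fun p => a p.1 p.2) (b := fun p => b p.1 p.2)
    (fun p q => h1 _ _ _ _) (fun p q => h2 _ _ _ _)
    (fun p q => by
      rw [h3]
      by_cases hpq : p = q
      · rw [if_pos hpq, if_pos ⟨congrArg Prod.fst hpq, congrArg Prod.snd hpq⟩]
      · rw [if_neg hpq, if_neg (fun h => hpq (Prod.ext h.1 h.2))]) h4 h5
  have hNA : A.NA ≤ A.LA := by
    rcases hz with hk | hz
    · exact key.2 hk
    · have hc : A.CN ≤ A.LA := A.centre_le fun X hX hg Y hY => by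
        refine dom_of_matrix (hz X ⟨hX.1, hX.2⟩ (fun T hT hTX Z hZ => ?_) Y ⟨hY.1, hY.2⟩)
        exact hg T hT hTX Z ⟨hZ.1, hZ.2⟩
      exact (AbVar.NA_le_of_rigid key.1).trans (sup_le le_rfl hc)
  have hA : ∀ (m : ℕ) (φ : MultilinearMap ℚ (fun _ : Fin m × Fin 2 => A.H1) ℚ),
      IsDeRhamBettiForm QBar A.dR tau m φ → IsHodgeTensor (A.per : A.H1 →+ (Fin g → ℂ)) φ :=
    fun m φ hφ => hodge_of_kills _ A.isRationalStructure φ fun Z hZ => hNA (A.MA_le_NA hZ) m φ hφ
  have hall : ∀ (r : ℕ) (w : ℤ) (c : (Fin r → Fin g ⊕ Fin g) → QBar)
      (φ : MultilinearMap ℚ (fun _ : Fin r => A.H1) ℚ), IsDRB A w c φ → IsHodge A φ :=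
    fun r w c φ hφ => R918.hodge_all_of hA hφ
  refine ⟨hall, ?_⟩
  ext P
  constructor
  · rintro ⟨p1, p2, p3⟩
    exact ⟨p1, p2, fun r w c φ hφ _ => p3 r w c φ hφ⟩
  · rintro ⟨p1, p2, p3⟩
    exact ⟨p1, p2, fun r w c φ hφ => p3 r w c φ hφ (hall r w c φ hφ)⟩

end Pool.Agent.Results.MP_f11a48_ag.UnitaryKugaSatake
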